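import Mathlib

/-!
The Wagner graph (the Moebius ladder on eight vertices) is a hypo-unique-domination graph and is
domination bicritical.
-/

namespace Pool.Agent.Results.MP_405fb9_co.Wagner

/-- `D` is a dominating set of `G`: every vertex outside `D` has a neighbour in `D`. -/
def Dominating {V : Type*} (G : SimpleGraph V) (D : Finset V) : Prop :=
  ∀ v, v ∉ D → ∃ u ∈ D, G.Adj v u

/-- The domination number of `G`: the minimum size of a dominating set. -/
noncomputable def domNumber {V : Type*} (G : SimpleGraph V) : ℕ :=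
  sInf {k | ∃ D : Finset V, Dominating G D ∧ D.card = k}

/-- A dominating set of minimum size. -/
def IsGammaSet {V : Type*} (G : SimpleGraph V) (D : Finset V) : Prop :=
  Dominating G D ∧ D.card = domNumber G

/-- Hypo-unique-domination: `G` has at least two minimum dominating sets, and each
vertex-deleted subgraph has exactly one. -/
def HypoUD {V : Type*} (G : SimpleGraph V) : Prop :=
  (∃ D D' : Finset V, D ≠ D' ∧ IsGammaSet G D ∧ IsGammaSet G D') ∧
    ∀ v : V, ∃! D : Finset {w : V | w ≠ v}, IsGammaSet (G.induce {w : V | w ≠ v}) D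

/-- Domination bicritical: deleting any two vertices decreases the domination number. -/
def Bicritical {V : Type*} (G : SimpleGraph V) : Prop :=
  ∀ S : Finset V, S.card = 2 → domNumber (G.induce {w : V | w ∉ S}) < domNumber G

/-! ### General facts -/

section general

variable {V : Type*}

lemma domNumber_eq (G : SimpleGraph V) (D : Finset V) (hD : Dominating G D)
    (hmin : ∀ D' : Finset V, Dominating G D' → D.card ≤ D'.card) : domNumber G = D.card := by
  apply le_antisymm
  · exact Nat.sInf_le ⟨D, hD, rfl⟩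
  · obtain ⟨D', h1, h2⟩ := Nat.sInf_mem
      (show {k | ∃ D : Finset V, Dominating G D ∧ D.card = k}.Nonempty from ⟨_, D, hD, rfl⟩)
    unfold domNumber
    rw [← h2]
    exact hmin D' h1

/-- `E` is a set of vertices avoiding `v` and dominating all the vertices except `v`. -/
def Dom1 (G : SimpleGraph V) (v : V) (E : Finset V) : Prop :=
  v ∉ E ∧ ∀ w, w ≠ v → w ∉ E → ∃ u ∈ E, G.Adj w u

lemma dom1_of (G : SimpleGraph V) (v : V) (D : Finset {w : V | w ≠ v})
    (hD : Dominating (G.induce {w : V | w ≠ v}) D) :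
    Dom1 G v (D.map (Function.Embedding.subtype _)) := by
  refine ⟨?_, ?_⟩
  · intro h
    obtain ⟨a, _, h2⟩ := Finset.mem_map.mp h
    exact a.2 h2
  · intro w hw hwD
    obtain ⟨u, hu, hadj⟩ := hD ⟨w, hw⟩ (fun h => hwD (Finset.mem_map.mpr ⟨_, h, rfl⟩))
    exact ⟨u, Finset.mem_map.mpr ⟨u, hu, rfl⟩, hadj⟩

lemma unique_of [DecidableEq V] (G : SimpleGraph V) (v : V) (E : Finset V) (h1 : Dom1 G v E)
    (h2 : ∀ E', Dom1 G v E' → E'.card ≤ E.card → E' = E) :
    ∃! D : Finset {w : V | w ≠ v}, IsGammaSet (G.induce {w : V | w ≠ v}) D := by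
  set D : Finset {w : V | w ≠ v} := E.subtype (fun w => w ≠ v) with hDdef
  have hmap : D.map (Function.Embedding.subtype _) = E := by
    rw [hDdef]
    exact Finset.subtype_map_of_mem (fun w hw h => h1.1 (h ▸ hw))
  have hcard : D.card = E.card := by
    rw [← hmap, Finset.card_map]
  have hD : Dominating (G.induce {w : V | w ≠ v}) D := by
    intro w hw
    have hw' : (w : V) ∉ E := fun h => hw (Finset.mem_subtype.mpr h)
    obtain ⟨u, hu, hadj⟩ := h1.2 w w.2 hw'
    exact ⟨⟨u, fun h => h1.1 (h ▸ hu)⟩, Finset.mem_subtype.mpr hu, hadj⟩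
  have hmin : ∀ D' : Finset {w : V | w ≠ v}, Dominating (G.induce {w : V | w ≠ v}) D' →
      D'.card ≤ D.card → D' = D := by
    intro D' hD' hc
    have h3 := dom1_of G v D' hD'
    have h4 := h2 _ h3 (by rw [Finset.card_map]; omega)
    rw [← hmap] at h4
    exact Finset.map_injective _ h4
  have hnum : domNumber (G.induce {w : V | w ≠ v}) = D.card := by
    apply domNumber_eq _ _ hD
    intro D' hD'
    by_contra hlt
    have := hmin D' hD' (by omega)
    rw [this] at hlt
    exact hlt le_rfl
  refine ⟨D, ⟨hD, hnum.symm⟩, ?_⟩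
  intro D' hD'
  exact hmin D' hD'.1 (by rw [hD'.2, hnum])

end general

/-! ### A search for small dominating sets -/

section checker

variable {n : ℕ}

/-- Branching search for the sets avoiding `v` that dominate all the other vertices: the answer
`true` means that each such set containing `ch` with at most `k` further elements is `Dl`. -/
def chk (ord : List (Fin n)) (nbs : Fin n → List (Fin n)) (cn : Fin n → ℕ) (v : Fin n)
    (Dl : List (Fin n)) : ℕ → List (Fin n) → ℕ → Bool
  | 0, ch, cov =>
    match ord.find? (fun w => w != v && !cov.testBit w) with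
    | none => Dl.all (fun u => ch.contains u) && ch.all (fun u => Dl.contains u)
    | some _ => true
  | k + 1, ch, cov =>
    match ord.find? (fun w => w != v && !cov.testBit w) with
    | none => false
    | some w => (nbs w).all fun u => u == v || chk ord nbs cn v Dl k (u :: ch) (cov ||| cn u)

lemma chk_sound (G : SimpleGraph (Fin n)) (ord : List (Fin n)) (nbs : Fin n → List (Fin n))
    (cn : Fin n → ℕ) (v : Fin n) (Dl : List (Fin n))
    (hnbs : ∀ w u, (u = w ∨ G.Adj w u) → u ∈ nbs w)
    (hcn : ∀ u w : Fin n, (cn u).testBit w = true ↔ (u = w ∨ G.Adj w u))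
    (D : Finset (Fin n)) (hD : Dom1 G v D) :
    ∀ (k : ℕ) (ch : List (Fin n)) (cov : ℕ), (∀ u ∈ ch, u ∈ D) → ch.Nodup →
      D.card ≤ ch.length + k →
      (∀ w : Fin n, cov.testBit w = true ↔ ∃ u ∈ ch, u = w ∨ G.Adj w u) →
      chk ord nbs cn v Dl k ch cov = true → D = Dl.toFinset := by
  have hdom : ∀ w, w ≠ v → ∃ u ∈ D, u = w ∨ G.Adj w u := by
    intro w hw
    by_cases h : w ∈ D
    · exact ⟨w, h, Or.inl rfl⟩
    · obtain ⟨u, hu, ha⟩ := hD.2 w hw h
      exact ⟨u, hu, Or.inr ha⟩
  have heq : ∀ ch : List (Fin n), (∀ u ∈ ch, u ∈ D) → ch.Nodup → D.card ≤ ch.length →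
      D = ch.toFinset := by
    intro ch h1 h2 h3
    symm
    apply Finset.eq_of_subset_of_card_le
    · intro u hu
      exact h1 u (List.mem_toFinset.mp hu)
    · rw [List.toFinset_card_of_nodup h2]; exact h3
  intro k
  induction k with
  | zero =>
    intro ch cov h1 h2 h3 h4 h5
    have hDch := heq ch h1 h2 (by simpa using h3)
    unfold chk at h5
    split at h5
    · rename_i hfind
      rw [Bool.and_eq_true, List.all_eq_true, List.all_eq_true] at h5
      rw [hDch]
      ext u
      rw [List.mem_toFinset, List.mem_toFinset]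
      constructor
      · intro hu
        have := h5.2 u hu
        simpa using this
      · intro hu
        have := h5.1 u hu
        simpa using this
    · rename_i w hfind
      exfalso
      have hw := List.find?_some hfind
      simp only [Bool.and_eq_true, bne_iff_ne, ne_eq, Bool.not_eq_true'] at hw
      obtain ⟨u, hu, hu'⟩ := hdom w hw.1
      rw [hDch, List.mem_toFinset] at hu
      have := (h4 w).mpr ⟨u, hu, hu'⟩
      rw [this] at hw
      exact Bool.noConfusion hw.2
  | succ k ih =>
    intro ch cov h1 h2 h3 h4 h5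
    unfold chk at h5
    split at h5
    · exact absurd h5 (by simp)
    · rename_i w hfind
      have hw := List.find?_some hfind
      simp only [Bool.and_eq_true, bne_iff_ne, ne_eq, Bool.not_eq_true'] at hw
      obtain ⟨u, hu, hu'⟩ := hdom w hw.1
      rw [List.all_eq_true] at h5
      have h6 := h5 u (hnbs w u hu')
      have huv : u ≠ v := fun h => hD.1 (h ▸ hu)
      have huch : u ∉ ch := by
        intro h
        have := (h4 w).mpr ⟨u, h, hu'⟩
        rw [this] at hw
        exact Bool.noConfusion hw.2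
      rw [Bool.or_eq_true] at h6
      rcases h6 with h6 | h6
      · exact absurd (by simpa using h6) huv
      · refine ih (u :: ch) (cov ||| cn u) ?_ ?_ ?_ ?_ h6
        · intro x hx
          rcases List.mem_cons.mp hx with rfl | hx
          · exact hu
          · exact h1 x hx
        · exact List.nodup_cons.mpr ⟨huch, h2⟩
        · rw [List.length_cons]; omega
        · intro z
          rw [Nat.testBit_or, Bool.or_eq_true, h4 z, hcn u z]
          constructor
          · rintro (⟨y, hy, hy'⟩ | h)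
            · exact ⟨y, List.mem_cons_of_mem _ hy, hy'⟩
            · exact ⟨u, List.mem_cons_self, h⟩
          · rintro ⟨y, hy, hy'⟩
            rcases List.mem_cons.mp hy with rfl | hy
            · exact Or.inr hy'
            · exact Or.inl ⟨y, hy, hy'⟩

end checker

/-! ### The Wagner graph -/

/-- The closed neighbourhoods (as bit masks) in the circulant graph `C_8(3, 4)`. -/
def masks : List ℕ := [57, 114, 228, 201, 147, 39, 78, 156]

/-- The closed neighbourhood of `u` as a bit mask. -/
def cn (u : Fin 8) : ℕ := masks.getD u 0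

/-- The closed neighbourhood of `u` as a list. -/
def nbs (u : Fin 8) : List (Fin 8) := (List.finRange 8).filter fun w => (cn u).testBit w

/-- The Wagner graph. -/
def W : SimpleGraph (Fin 8) where
  Adj i j := i ≠ j ∧ (cn i).testBit j = true
  symm := ⟨by decide⟩
  loopless := ⟨fun _ h => h.1 rfl⟩

instance : DecidableRel W.Adj := fun i j =>
  inferInstanceAs (Decidable (i ≠ j ∧ (cn i).testBit j = true))

lemma cn_iff : ∀ u w : Fin 8, (cn u).testBit w = true ↔ (u = w ∨ W.Adj w u) := by decide

lemma nbs_mem : ∀ w u : Fin 8, (u = w ∨ W.Adj w u) → u ∈ nbs w := by decide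

lemma pair_dom : ∀ v : Fin 8, v ∉ ({v + 7, v + 1} : Finset (Fin 8)) ∧
    ∀ w, w ≠ v → w ∉ ({v + 7, v + 1} : Finset (Fin 8)) →
      ∃ u ∈ ({v + 7, v + 1} : Finset (Fin 8)), W.Adj w u := by decide

lemma pair_not : ∀ v : Fin 8, ¬ ∃ u ∈ ({v + 7, v + 1} : Finset (Fin 8)), W.Adj v u := by decide

lemma pair_card : ∀ v : Fin 8, ({v + 7, v + 1} : Finset (Fin 8)).card = 2 := by decide

lemma search : ∀ v : Fin 8, chk (List.finRange 8) nbs cn v [v + 7, v + 1] 2 [] 0 = true := by
  decide

lemma pair_unique (v : Fin 8) (E : Finset (Fin 8)) (hE : Dom1 W v E) (hc : E.card ≤ 2) :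
    E = {v + 7, v + 1} := by
  have h := chk_sound W (List.finRange 8) nbs cn v [v + 7, v + 1] nbs_mem cn_iff E hE 2 [] 0
    (by simp) (by simp) (by simpa using hc) (by simp) (search v)
  rw [h]
  simp

lemma dom_card (D : Finset (Fin 8)) (hD : Dominating W D) : 3 ≤ D.card := by
  by_contra hlt
  have hne : ∃ v, v ∉ D := by
    by_contra hcon
    push Not at hcon
    have : D = Finset.univ := Finset.eq_univ_of_forall hcon
    rw [this] at hlt
    exact hlt (by decide)
  obtain ⟨v, hv⟩ := hne
  have h := pair_unique v D ⟨hv, fun w _ hwD => hD w hwD⟩ (by omega)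
  obtain ⟨u, hu, ha⟩ := hD v hv
  rw [h] at hu
  exact pair_not v ⟨u, hu, ha⟩

lemma dom012 : ∀ v : Fin 8, v ∉ ({0, 1, 2} : Finset (Fin 8)) →
    ∃ u ∈ ({0, 1, 2} : Finset (Fin 8)), W.Adj v u := by decide

lemma dom017 : ∀ v : Fin 8, v ∉ ({0, 1, 7} : Finset (Fin 8)) →
    ∃ u ∈ ({0, 1, 7} : Finset (Fin 8)), W.Adj v u := by decide

lemma domNumber_W : domNumber W = 3 :=
  (domNumber_eq W {0, 1, 2} dom012 (fun D' h => by
    have := dom_card D' h
    exact le_trans (by decide) this)).trans (by decide)

lemma two_deleted : ∀ a b : Fin 8, a ≠ b → ∃ c d : Fin 8, c ≠ a ∧ c ≠ b ∧ d ≠ a ∧ d ≠ b ∧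
    ∀ w : Fin 8, w ≠ a → w ≠ b → w = c ∨ w = d ∨ W.Adj w c ∨ W.Adj w d := by decide

/-- **Main theorem.** There is a graph (the Wagner graph) which is both domination bicritical
and hypo-unique-domination. -/
theorem result : ∃ (n : ℕ) (G : SimpleGraph (Fin n)), 3 ≤ n ∧ HypoUD G ∧ Bicritical G := by
  refine ⟨8, W, by norm_num, ⟨⟨{0, 1, 2}, {0, 1, 7}, by decide, ⟨dom012, ?_⟩, ⟨dom017, ?_⟩⟩, ?_⟩,
    ?_⟩
  · rw [domNumber_W]; decide
  · rw [domNumber_W]; decide
  · intro v
    refine unique_of W v {v + 7, v + 1} (pair_dom v) ?_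
    intro E hE hc
    rw [pair_card] at hc
    exact pair_unique v E hE hc
  · intro S hS
    obtain ⟨a, b, hab, rfl⟩ := Finset.card_eq_two.mp hS
    obtain ⟨c, d, hca, hcb, hda, hdb, h⟩ := two_deleted a b hab
    rw [domNumber_W]
    have hc' : c ∉ ({a, b} : Finset (Fin 8)) := by simp [hca, hcb]
    have hd' : d ∉ ({a, b} : Finset (Fin 8)) := by simp [hda, hdb]
    set D : Finset {w : Fin 8 | w ∉ ({a, b} : Finset (Fin 8))} := {⟨c, hc'⟩, ⟨d, hd'⟩} with hDdef
    have hD : Dominating (W.induce {w : Fin 8 | w ∉ ({a, b} : Finset (Fin 8))}) D := by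
      intro w hw
      have hw1 : (w : Fin 8) ∉ ({a, b} : Finset (Fin 8)) := w.2
      have hwa : (w : Fin 8) ≠ a := fun h => hw1 (by simp [h])
      have hwb : (w : Fin 8) ≠ b := fun h => hw1 (by simp [h])
      rcases h w hwa hwb with h1 | h1 | h1 | h1
      · exact absurd (by rw [hDdef]; simp [Subtype.ext_iff, h1]) hw
      · exact absurd (by rw [hDdef]; simp [Subtype.ext_iff, h1]) hw
      · exact ⟨⟨c, hc'⟩, by rw [hDdef]; simp, h1⟩
      · exact ⟨⟨d, hd'⟩, by rw [hDdef]; simp, h1⟩
    have h1 : domNumber (W.induce {w : Fin 8 | w ∉ ({a, b} : Finset (Fin 8))}) ≤ D.card :=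
      Nat.sInf_le ⟨D, hD, rfl⟩
    have h2 : D.card ≤ 2 := Finset.card_le_two
    omega

end Pool.Agent.Results.MP_405fb9_co.Wagner
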